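import Pool.Agent.Results.MP_295d38_ag.EndomorphismsOfLinePowers
import Pool.Agent.Results.MP_295d38_ag.QuadraticLinePowers

/-!
# Dynamical Mordell-Lang for curves in `ℙ^1 × ℙ^1`: almost all pairs of rational maps
-/

set_option autoImplicit false

namespace Pool.Agent.Results.MP_e566f8_ag.AlmostAllPairs

open MvPolynomial

/-- Indices of the coefficients of two pairs of binary forms, those of the `i`-th pair being of
degree `d i`. -/
abbrev Idx (d : Fin 2 → ℕ) : Type := Σ i : Fin 2, Fin 2 × Fin (d i + 1)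

/-- The self-map `(P_0, P_1) ↦ (f_0 (P_0), f_1 (P_1))` of `ℙ^1 × ℙ^1` in homogeneous coordinates, `f_i`
being the rational function
`(x : y) ↦ (∑ v_{i,0,e} x^e y^(d i - e) : ∑ v_{i,1,e} x^e y^(d i - e))`. -/
noncomputable def pairMap {d : Fin 2 → ℕ} (v : Idx d → ℤ)
    (x : Fin 2 × Fin 2 → ℂ) : Fin 2 × Fin 2 → ℂ :=
  fun q => ∑ e : Fin (d q.1 + 1),
    (v ⟨q.1, (q.2, e)⟩ : ℂ) * (x (q.1, 0) ^ (e : ℕ) * x (q.1, 1) ^ (d q.1 - (e : ℕ)))

/-- A bihomogeneous polynomial. -/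
def BiHom (g : MvPolynomial (Fin 2 × Fin 2) ℂ) : Prop :=
  ∃ e : Fin 2 → ℕ, ∀ (t : Fin 2 → ℂ) (x : Fin 2 × Fin 2 → ℂ),
    eval (fun q => t q.1 * x q) g = (∏ i, t i ^ e i) * eval x g

/-- For every point `α` of `ℙ^1 × ℙ^1` with coordinates in `L` and every curve `C` (the zeros of a
bihomogeneous polynomial `g` over `ℂ`) the set of the `k` with `F^k (α)` on `C` is a finite union of
arithmetic progressions. -/
def CurveReturns (L : Set ℂ) (F : (Fin 2 × Fin 2 → ℂ) → (Fin 2 × Fin 2 → ℂ)) : Prop :=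
  ∀ α : Fin 2 × Fin 2 → ℂ, (∀ q, α q ∈ L) → (∀ i, ¬ (α (i, 0) = 0 ∧ α (i, 1) = 0)) →
    ∀ g : MvPolynomial (Fin 2 × Fin 2) ℂ, BiHom g →
      ∃ T : Finset (ℕ × ℕ), {k : ℕ | eval (F^[k] α) g = 0} =
        {k : ℕ | ∃ q ∈ T, ∃ m : ℕ, k = q.1 * m + q.2}

/-- `F` maps points to points: no pair of homogeneous coordinates becomes `(0, 0)`. -/
def Regular (F : (Fin 2 × Fin 2 → ℂ) → (Fin 2 × Fin 2 → ℂ)) : Prop :=
  ∀ α : Fin 2 × Fin 2 → ℂ, (∀ i, ¬ (α (i, 0) = 0 ∧ α (i, 1) = 0)) →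
    ∀ i, ¬ (F α (i, 0) = 0 ∧ F α (i, 1) = 0)

theorem card_le {ι : Type} [Finite ι] (P P' : (ι → ℤ) → Prop) (h : ∀ v, P v → P' v) (b : ι → ℤ)
    (H : ℕ) : (Nat.card {v : ι → ℤ // (∀ i, |v i - b i| ≤ (H : ℤ)) ∧ ¬ P' v} : ℝ) ≤
      (Nat.card {v : ι → ℤ // (∀ i, |v i - b i| ≤ (H : ℤ)) ∧ ¬ P v} : ℝ) := by
  have hfin : Finite {v : ι → ℤ // (∀ i, |v i - b i| ≤ (H : ℤ)) ∧ ¬ P v} := by
    apply Set.Finite.subset (Set.Finite.pi' fun i => Set.finite_Icc (b i - (H : ℤ)) (b i + H))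
    rintro v ⟨hv, -⟩ i
    have := abs_le.1 (hv i)
    exact ⟨by linarith [this.1], by linarith [this.2]⟩
  have hle := Nat.card_le_card_of_injective
    (fun v : {v : ι → ℤ // (∀ i, |v i - b i| ≤ (H : ℤ)) ∧ ¬ P' v} =>
      (⟨v.1, v.2.1, fun h' => v.2.2 (h v.1 h')⟩ :
        {v : ι → ℤ // (∀ i, |v i - b i| ≤ (H : ℤ)) ∧ ¬ P v}))
    (fun v w hvw => Subtype.ext (congrArg (fun z => z.1) hvw))
  exact_mod_cast hle

/-- **Dynamical Mordell-Lang for curves in `ℙ^1 × ℙ^1`: almost all pairs of rational maps.**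
(i) There is `δ > 0` such that for all large `H` and every cube `|v_q - b_q| ≤ H` in `ℤ^12`, for all
but a proportion `H ^ (-δ)` of the integral vectors `v` in the cube the pair `(f_0, f_1)` of
quadratic rational functions with coefficients `v` satisfies: for all complex points and all curves
the return set is a finite union of arithmetic progressions. (ii) For all degrees `d i ≥ 1` and
every finitely generated field `L ⊂ ℂ` the same holds for the pairs of rational functions of degrees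
`d 0`, `d 1`, at all points over `L`. -/
theorem result :
    (∃ δ : ℝ, 0 < δ ∧ ∃ H₀ : ℕ, ∀ H : ℕ, H₀ ≤ H → ∀ b : Idx (fun _ => 2) → ℤ,
      (Nat.card {v : Idx (fun _ => 2) → ℤ // (∀ q, |v q - b q| ≤ (H : ℤ)) ∧
        ¬ (Regular (pairMap v) ∧ CurveReturns Set.univ (pairMap v))} : ℝ) ≤
          (H : ℝ) ^ (-δ) * (2 * H + 1 : ℝ) ^ 12) ∧
    (∀ d : Fin 2 → ℕ, (∀ i, 1 ≤ d i) → ∀ s : Finset ℂ,
      ∃ δ : ℝ, 0 < δ ∧ ∃ H₀ : ℕ, ∀ H : ℕ, H₀ ≤ H → ∀ b : Idx d → ℤ,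
        (Nat.card {v : Idx d → ℤ // (∀ i, |v i - b i| ≤ (H : ℤ)) ∧
          ¬ CurveReturns (Subfield.closure (s : Set ℂ)) (pairMap v)} : ℝ) ≤
            (H : ℝ) ^ (-δ) * (2 * H + 1 : ℝ) ^ Fintype.card (Idx d)) := by
  constructor
  · obtain ⟨δ, hδ, H₀, hH⟩ := MP_295d38_ag.QuadraticLinePowers.result 2 (by norm_num)
    refine ⟨δ, hδ, H₀, fun H hH₀ b => ?_⟩
    have h0 := hH H hH₀ (fun q => b ⟨q.1, q.2⟩)
    refine le_trans ?_ h0
    have hfin : Finite {v : Fin 2 × Fin 2 × Fin 3 → ℤ //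
        (∀ q, |v q - b ⟨q.1, q.2⟩| ≤ (H : ℤ)) ∧
        ¬ ∀ (N : ℕ) (τ : Fin N → Fin 2) (σ : Fin N → Fin N),
          MP_295d38_ag.QuadraticLinePowers.Regular
            (MP_295d38_ag.QuadraticLinePowers.qmap τ σ v) ∧
          MP_295d38_ag.QuadraticLinePowers.DML
            (MP_295d38_ag.QuadraticLinePowers.qmap τ σ v)} := by
      apply Set.Finite.subset (Set.Finite.pi' fun q : Fin 2 × Fin 2 × Fin 3 =>
        Set.finite_Icc (b ⟨q.1, q.2⟩ - (H : ℤ)) (b ⟨q.1, q.2⟩ + H))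
      rintro v ⟨hv, -⟩ q
      have := abs_le.1 (hv q)
      exact ⟨by linarith [this.1], by linarith [this.2]⟩
    have hle := Nat.card_le_card_of_injective
      (fun v : {v : Idx (fun _ => 2) → ℤ // (∀ q, |v q - b q| ≤ (H : ℤ)) ∧
        ¬ (Regular (pairMap v) ∧ CurveReturns Set.univ (pairMap v))} =>
        (⟨fun q => v.1 ⟨q.1, q.2⟩, fun q => v.2.1 ⟨q.1, q.2⟩, fun h' => v.2.2 (by
          obtain ⟨h1, h2⟩ := h' 2 id id
          refine ⟨h1, fun α _ hα g hg => ?_⟩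
          obtain ⟨T, hT⟩ := h2 α hα {g} (by
            intro g' hg'
            rw [Set.mem_singleton_iff] at hg'
            subst hg'
            exact hg)
          refine ⟨T, ?_⟩
          rw [← hT]
          ext k
          simp only [Set.mem_ofPred_eq, Set.mem_singleton_iff, forall_eq]
          rfl)⟩ :
          {v : Fin 2 × Fin 2 × Fin 3 → ℤ //
            (∀ q, |v q - b ⟨q.1, q.2⟩| ≤ (H : ℤ)) ∧
            ¬ ∀ (N : ℕ) (τ : Fin N → Fin 2) (σ : Fin N → Fin N),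
              MP_295d38_ag.QuadraticLinePowers.Regular
                (MP_295d38_ag.QuadraticLinePowers.qmap τ σ v) ∧
              MP_295d38_ag.QuadraticLinePowers.DML
                (MP_295d38_ag.QuadraticLinePowers.qmap τ σ v)}))
      (fun v w hvw => by
        apply Subtype.ext
        funext q
        exact congrFun (congrArg (fun z => z.1) hvw) (q.1, q.2))
    exact_mod_cast hle
  · intro d hd s
    obtain ⟨δ, hδ, H₀, hH⟩ := MP_295d38_ag.EndomorphismsOfLinePowers.result 2 d hd s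
    refine ⟨δ, hδ, H₀, fun H hH₀ b => le_trans (card_le _ _ (fun v hv => ?_) b H)
      (hH H hH₀ b)⟩
    intro α hL hα g hg
    obtain ⟨T, hT⟩ := hv id α hL hα {g} (by
      intro g' hg'
      rw [Set.mem_singleton_iff] at hg'
      subst hg'
      exact hg)
    refine ⟨T, ?_⟩
    rw [← hT]
    ext k
    simp only [Set.mem_ofPred_eq, Set.mem_singleton_iff, forall_eq]
    rfl

end Pool.Agent.Results.MP_e566f8_ag.AlmostAllPairs
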